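import Pool.Agent.H910.Gg.Core

/-!
Entire curves in projective varieties which are fibred by curves over pseudo-Brody hyperbolic
varieties.
-/

set_option autoImplicit false
set_option linter.unusedSectionVars false
set_option linter.unusedVariables false
set_option linter.overlappingInstances false

open Filter Topology Set Metric

namespace Pool.Agent.H910.Gg

open FF
open Pool.Agent.W602.GT
open Pool.Agent.Y216 (OnVar)
open Pool.Agent.Y221.BD (EntireCurve PseudoBrody)
open Pool.Agent.W603.LV (canDeg)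
open Pool.Agent.W603.PV (pht pord exists_pord pord_le)
open Pool.Agent.Q103.SF
open Pool.Agent.Q271.RC (Nonconst IsGeneric)
open Pool.Agent.H916 (InClosure Meets RMap LinearOff LogHypFibres FibreField cuspFun)
open Pool.Agent.H910.Cf
open Pool.Agent.H910.Lp

variable {M : ℕ} {K : Type} [Field K] [Algebra ℂ K] {x : Fin (M + 1) → K}

/-- **Entire curves in projective varieties which are fibred by curves.** -/
theorem pb_fib (hx : x ≠ 0) (hgen : coords ℂ x = ⊤) {r : ℕ} {N : Fin r → ℕ}
    {y : ∀ l, Fin (N l + 1) → K} (hy : ∀ l, y l ≠ 0)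
    (hfib : LogHypFibres (⨆ l, coords ℂ (y l)).toSubfield
      (cuspFun x fun _ : Unit => (1 : MvPolynomial (Fin (M + 1)) ℂ)))
    (hC : ∀ l, ConstOn x (fun _ : Unit => (1 : MvPolynomial (Fin (M + 1)) ℂ)) (y l)) :
    PseudoBrody x := by
  classical
  have ht0 : IntermediateField.adjoin ℂ (Set.range (Fin.elim0 : Fin 0 → ℂ)) = ⊤ := by
    rw [eq_top_iff]
    rintro z -
    exact IntermediateField.algebraMap_mem _ z
  have hQ : ∀ i, IsForm ((fun _ : Unit => (1 : MvPolynomial (Fin (M + 1)) ℂ)) i) :=
    fun _ => form_one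
  obtain ⟨j', e', H', hH', G0, hG0, hG0x, hG0j, A, hA0⟩ :=
    Pool.Agent.H916.rel_log_rat (k := ℂ) (k0 := ℂ) ht0 hx hgen hy hQ (qone x) hfib
  choose G4 hG4 hG4x hmain4 using fun l : Fin r => hC l (j' l) e' (H' l) (hH' l)
  obtain ⟨u, hu⟩ := exists_u hfib
  -- the extended family
  let N' : Fin (r + 1) → ℕ := Fin.cons 1 N
  let y' : ∀ s : Fin (r + 1), Fin (N' s + 1) → K :=
    Fin.cons (α := fun s : Fin (r + 1) => Fin (N' s + 1) → K) (![1, u] : Fin 2 → K) y
  have hy' : ∀ s, y' s ≠ 0 := by
    refine Fin.cases ?_ fun l => ?_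
    · intro h0
      have := congrFun h0 0
      exact one_ne_zero this
    · exact hy l
  obtain ⟨R, Y, e, H, c, j, hY0, hYC, hR, hRl, hj0, hs⟩ := exists_comb hx hgen hy'
  have hu_mem : u ∈ coords ℂ Y := by
    rw [hYC]
    have h1 : coords ℂ (y' 0) ≤ ⨆ s, coords ℂ (y' s) := le_iSup (fun s => coords ℂ (y' s)) 0
    apply h1
    refine IntermediateField.subset_adjoin _ _ ⟨1, 0, one_ne_zero, ?_⟩
    change u = u / 1
    rw [div_one]
  have hC_le : (⨆ l, coords ℂ (y l)) ≤ coords ℂ Y := by
    rw [hYC]
    exact iSup_le fun l => le_iSup (fun s => coords ℂ (y' s)) l.succ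
  have halg : Algebra.IsAlgebraic (coords ℂ Y) K := by
    constructor
    intro z
    obtain ⟨p, hp, hpz⟩ := hu z
    have hmem : ∀ w ∈ IntermediateField.adjoin (⨆ l, coords ℂ (y l)).toSubfield ({u} : Set K),
        w ∈ coords ℂ Y := by
      intro w hw
      refine IntermediateField.adjoin_induction (⨆ l, coords ℂ (y l)).toSubfield
        (p := fun w _ => w ∈ coords ℂ Y) ?_ ?_ ?_ ?_ ?_ hw
      · intro w hw
        rw [Set.mem_singleton_iff.1 hw]
        exact hu_mem
      · intro c
        exact hC_le c.2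
      · intro a b _ _ ha hb
        exact (coords ℂ Y).add_mem ha hb
      · intro a _ ha
        exact (coords ℂ Y).inv_mem ha
      · intro a b _ _ ha hb
        exact (coords ℂ Y).mul_mem ha hb
    let φ : IntermediateField.adjoin (⨆ l, coords ℂ (y l)).toSubfield ({u} : Set K) →+*
        coords ℂ Y := (algebraMap _ K).codRestrict (coords ℂ Y) fun w => hmem w w.2
    refine ⟨p.map φ, ?_, ?_⟩
    · rw [Ne, Polynomial.map_eq_zero]
      exact hp
    · rw [Polynomial.aeval_def, Polynomial.eval₂_map, ← hpz, Polynomial.aeval_def]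
      rfl
  obtain ⟨G2, hG2, hG2x, hcl⟩ := alg_close hx hgen (fun h0 => hY0 (congrFun h0 0)) halg
  choose G3 hG3 hG3x hmain using fun l : Fin r => hC l (j l.succ) e (fun a => H (c l.succ a))
    (hRl l.succ)
  let G1 : MvPolynomial (Fin (M + 1)) ℂ := G0 * ∏ l, G4 l
  have hG1 : IsForm G1 := Pool.Agent.H916.isForm_mul0 hG0 (fin_isForm_prod hG4)
  have hG1x : val x G1 ≠ 0 := by
    rw [Pool.Agent.H916.val_mul_ne0, Pool.Agent.H916.val_prod_ne0]
    exact ⟨hG0x, hG4x⟩
  refine ⟨G1 * G2 * H 0 * ∏ l, G3 l, Pool.Agent.H916.isForm_mul0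
    (Pool.Agent.H916.isForm_mul0 (Pool.Agent.H916.isForm_mul0 hG1 hG2) ⟨e, hR.hom 0⟩)
    (fin_isForm_prod hG3), ?_, ?_⟩
  · rw [Pool.Agent.H916.val_mul_ne0, Pool.Agent.H916.val_mul_ne0, Pool.Agent.H916.val_mul_ne0,
      Pool.Agent.H916.val_prod_ne0]
    exact ⟨⟨⟨hG1x, hG2x⟩, hR.ne⟩, hG3x⟩
  · -- entire curves
    intro f0 hf0
    obtain ⟨f, hff0⟩ : ∃ f : ℂ → Fin (M + 1) → ℂ, f = fun t i => f0 i t := ⟨_, rfl⟩
    have hf : Entire x (fun _ : Unit => (1 : MvPolynomial (Fin (M + 1)) ℂ)) f := by
      rw [hff0]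
      exact entire_of hf0
    suffices hgoal : ∀ t, MvPolynomial.eval (f t) (G1 * G2 * H 0 * ∏ l, G3 l) = 0 by
      rw [hff0] at hgoal
      exact hgoal
    by_contra hcon
    push Not at hcon
    obtain ⟨t0, ht0⟩ := hcon
    rw [map_mul, map_mul, map_mul, map_prod] at ht0
    have hne4 := right_ne_zero_of_mul ht0
    have hne3 := right_ne_zero_of_mul (left_ne_zero_of_mul ht0)
    have hne2 := right_ne_zero_of_mul (left_ne_zero_of_mul (left_ne_zero_of_mul ht0))
    have hne1 := left_ne_zero_of_mul (left_ne_zero_of_mul (left_ne_zero_of_mul ht0))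
    obtain ⟨E, i1, i2, z, t, hz, hzgen, hoff, htr, ht1, hiff, hlow⟩ := entire_sub' hQ hf
    have hval : ∀ G : MvPolynomial (Fin (M + 1)) ℂ, IsForm G →
        MvPolynomial.eval (f t0) G ≠ 0 → val z G ≠ 0 := fun G hG h h0 =>
      h ((hiff G hG).1 h0 t0)
    have hzH : MvPolynomial.aeval z (H 0) ≠ 0 := hval _ ⟨e, hR.hom 0⟩ hne3
    obtain ⟨b, hb⟩ := hz.1
    have hclo : InClosure ℂ x Y z fun s => MvPolynomial.aeval z (H s) :=
      ⟨b, 0, hb, hzH, (hR.graph hz hb hzH).2.2⟩
    have hzj : ∀ s, MvPolynomial.aeval z (H (c s (j s))) = MvPolynomial.aeval z (H 0) := by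
      intro s
      have h1 := hz.2 (H (c s (j s)) - H 0) ⟨e, (hR.hom _).sub (hR.hom _)⟩ (by
        unfold Pool.Agent.W602.GT.val
        rw [map_sub, hj0, sub_self])
      unfold Pool.Agent.W602.GT.val at h1
      rw [map_sub, sub_eq_zero] at h1
      exact h1
    have hlin : ∀ (a b : Fin (R + 1)) (α β : ℂ),
        IsForm (MvPolynomial.C α * H a - MvPolynomial.C β * H b) := by
      intro a b α β
      refine ⟨e, MvPolynomial.IsHomogeneous.sub ?_ ?_⟩
      · have := (MvPolynomial.isHomogeneous_C (Fin (M + 1)) α).mul (hR.hom a)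
        rwa [zero_add] at this
      · have := (MvPolynomial.isHomogeneous_C (Fin (M + 1)) β).mul (hR.hom b)
        rwa [zero_add] at this
    -- the images in the first factors are constant
    have hconst : ∀ (l : Fin r) (a : Fin (N l + 1)), ∃ α : ℂ,
        MvPolynomial.aeval z (H (c l.succ a)) / MvPolynomial.aeval z (H 0) =
          algebraMap ℂ E α := by
      intro l a
      obtain ⟨⟨t1, ht1⟩, hcc⟩ := hmain l f hf ⟨t0, Finset.prod_ne_zero_iff.1 hne4 l
        (Finset.mem_univ l)⟩
      obtain ⟨p, hp⟩ : ∃ p, p = MvPolynomial.eval (f t1) (H (c l.succ (j l.succ))) := ⟨_, rfl⟩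
      obtain ⟨q, hq⟩ : ∃ q, q = MvPolynomial.eval (f t1) (H (c l.succ a)) := ⟨_, rfl⟩
      have hp0 : p ≠ 0 := by
        rw [hp]
        exact ht1
      refine ⟨q / p, ?_⟩
      have h0 := (hiff _ (hlin (c l.succ a) (c l.succ (j l.succ)) p q)).2 (fun t => by
        rw [map_sub, map_mul, map_mul, MvPolynomial.eval_C, MvPolynomial.eval_C, hp, hq]
        have h1 := hcc a (j l.succ) t t1
        linear_combination h1)
      unfold Pool.Agent.W602.GT.val at h0
      rw [map_sub, map_mul, map_mul, MvPolynomial.aeval_C, MvPolynomial.aeval_C, hzj,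
        sub_eq_zero] at h0
      rw [map_div₀, div_eq_div_iff hzH ((_root_.map_ne_zero _).2 hp0)]
      linear_combination h0
    -- the transcendence degree
    have ht : t ≤ 1 := by
      obtain ⟨a', ha'⟩ : ∃ a' : Fin (N' 0 + 1), ∀ a : Fin (N' 0 + 1), a = j 0 ∨ a = a' := by
        have h2 : ∀ i : Fin 2, ∃ a' : Fin 2, ∀ a : Fin 2, a = i ∨ a = a' := by decide
        exact h2 (j 0)
      obtain ⟨w, hw⟩ : ∃ w : E, w = MvPolynomial.aeval z (H (c 0 a')) /
        MvPolynomial.aeval z (H 0) := ⟨_, rfl⟩
      have h1 : coords ℂ (fun s => MvPolynomial.aeval z (H s)) ≤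
          IntermediateField.adjoin ℂ {w} := by
        rw [Pool.Agent.H916.coords_eq (x := fun s => MvPolynomial.aeval z (H s)) (i0 := 0) hzH,
          IntermediateField.adjoin_le_iff]
        rintro _ ⟨s, rfl⟩
        change MvPolynomial.aeval z (H s) / MvPolynomial.aeval z (H 0) ∈ _
        rcases hs s with rfl | ⟨l, a, rfl⟩
        · rw [div_self hzH]
          exact one_mem _
        · revert a
          refine Fin.cases (motive := fun l => ∀ a : Fin (N' l + 1),
            MvPolynomial.aeval z (H (c l a)) / MvPolynomial.aeval z (H 0) ∈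
              IntermediateField.adjoin ℂ {w}) ?_ (fun l a => ?_) l
          · intro a
            rcases ha' a with rfl | rfl
            · rw [hzj, div_self hzH]
              exact one_mem _
            · rw [← hw]
              exact IntermediateField.mem_adjoin_simple_self ℂ w
          · obtain ⟨α, hα⟩ := hconst l a
            rw [hα]
            exact IntermediateField.algebraMap_mem _ _
      have h2 : Algebra.IsAlgebraic (IntermediateField.adjoin ℂ {w}) E := by
        constructor
        intro v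
        have h3 : ∀ v ∈ coords ℂ z, v ∈ algebraicClosure (IntermediateField.adjoin ℂ {w}) E := by
          intro v hv
          have h4 : coords ℂ z ≤ (algebraicClosure (IntermediateField.adjoin ℂ {w}) E).restrictScalars
              ℂ := by
            unfold Pool.Agent.W602.GT.coords
            rw [IntermediateField.adjoin_le_iff]
            rintro _ ⟨i, k, hk, rfl⟩
            change z i / z k ∈ algebraicClosure (IntermediateField.adjoin ℂ {w}) E
            rw [mem_algebraicClosure_iff]
            obtain ⟨p, hp, hpz⟩ := hcl E z _ hclo (hval G2 hG2 hne2) i k hk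
            refine ⟨p.map (IntermediateField.inclusion h1).toRingHom, ?_, ?_⟩
            · rw [Ne, Polynomial.map_eq_zero]
              exact hp
            · rw [← hpz, Polynomial.aeval_def, Polynomial.eval₂_map, Polynomial.aeval_def]
              rfl
          exact h4 hv
        exact mem_algebraicClosure_iff.1 (h3 v (by rw [hzgen]; exact IntermediateField.mem_top))
      have h3 := Pool.Agent.W602.GT.alg_adjoin h2
      have h5 : Algebra.trdeg ℂ E ≤ Cardinal.mk ({w} : Set E) :=
        Algebra.IsAlgebraic.trdeg_le_cardinalMk ℂ ({w} : Set E)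
      rw [htr, Cardinal.mk_singleton] at h5
      exact_mod_cast h5
    obtain rfl : t = 1 := by omega
    have hff : IsFF ℂ E := ⟨Pool.Agent.Q72.NA.ess_of_adjoin hzgen, by rw [htr]; simp⟩
    have hnc : Nonconst z := Pool.Agent.Q96.LS.nonconst_of ⟨hz.1, hzgen⟩ htr
    have hzG1 := hval G1 hG1 hne1
    rw [Pool.Agent.H916.val_mul_ne0, Pool.Agent.H916.val_prod_ne0] at hzG1
    have h2 := hA0 E z hz hzG1.1
    have hp : ∀ l, (pht ℂ fun i => MvPolynomial.aeval z (H' l i)) ≤ 0 := by
      intro l
      have hne1' : MvPolynomial.eval (f t0) (∏ l, G4 l) ≠ 0 := by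
        have := hne1
        rw [map_mul] at this
        exact right_ne_zero_of_mul this
      rw [map_prod] at hne1'
      obtain ⟨⟨t1, ht1⟩, hcc⟩ := hmain4 l f hf ⟨t0, Finset.prod_ne_zero_iff.1 hne1' l
        (Finset.mem_univ l)⟩
      have hzj' : MvPolynomial.aeval z (H' l (j' l)) ≠ 0 := hG0j E z hz hzG1.1 l
      obtain ⟨p, hp⟩ : ∃ p, p = MvPolynomial.eval (f t1) (H' l (j' l)) := ⟨_, rfl⟩
      have hp0 : p ≠ 0 := by
        rw [hp]
        exact ht1
      have hlin' : ∀ a, IsForm (MvPolynomial.C p * H' l a -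
          MvPolynomial.C (MvPolynomial.eval (f t1) (H' l a)) * H' l (j' l)) := by
        intro a
        refine ⟨e', MvPolynomial.IsHomogeneous.sub ?_ ?_⟩
        · have := (MvPolynomial.isHomogeneous_C (Fin (M + 1)) p).mul ((hH' l).hom a)
          rwa [zero_add] at this
        · have := (MvPolynomial.isHomogeneous_C (Fin (M + 1))
            (MvPolynomial.eval (f t1) (H' l a))).mul ((hH' l).hom (j' l))
          rwa [zero_add] at this
      have hc : ∀ a, MvPolynomial.aeval z (H' l a) = MvPolynomial.aeval z (H' l (j' l)) *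
          algebraMap ℂ E (MvPolynomial.eval (f t1) (H' l a) / p) := by
        intro a
        have h0 := (hiff _ (hlin' a)).2 (fun t => by
          rw [map_sub, map_mul, map_mul, MvPolynomial.eval_C, MvPolynomial.eval_C, hp]
          have h1 := hcc a (j' l) t t1
          linear_combination h1)
        unfold Pool.Agent.W602.GT.val at h0
        rw [map_sub, map_mul, map_mul, MvPolynomial.aeval_C, MvPolynomial.aeval_C,
          sub_eq_zero] at h0
        have hp1 : algebraMap ℂ E p ≠ 0 := (_root_.map_ne_zero _).2 hp0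
        rw [map_div₀]
        field_simp
        linear_combination h0
      have h4 : (fun i => MvPolynomial.aeval z (H' l i)) = fun i =>
          MvPolynomial.aeval z (H' l (j' l)) *
            algebraMap ℂ E (MvPolynomial.eval (f t1) (H' l i) / p) := funext hc
      have hcj : MvPolynomial.eval (f t1) (H' l (j' l)) / p = 1 := by
        rw [← hp, div_self hp0]
      rw [h4, Pool.Agent.W603.PV.pht_scale ⟨j' l, by
        change algebraMap ℂ E (MvPolynomial.eval (f t1) (H' l (j' l)) / p) ≠ 0
        rw [hcj, map_one]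
        exact one_ne_zero⟩ hzj']
      have h5 : ∀ P : Place ℂ E, pord P (fun i =>
          algebraMap ℂ E (MvPolynomial.eval (f t1) (H' l i) / p)) = 0 := by
        intro P
        obtain ⟨b, hb, hlo⟩ := exists_pord P (f := fun i =>
          algebraMap ℂ E (MvPolynomial.eval (f t1) (H' l i) / p)) ⟨j' l, by
            change algebraMap ℂ E (MvPolynomial.eval (f t1) (H' l (j' l)) / p) ≠ 0
            rw [hcj, map_one]
            exact one_ne_zero⟩
        rw [← hlo]
        exact P.ord_const ((map_ne_zero _).1 hb)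
      unfold Pool.Agent.W603.PV.pht
      rw [finsum_congr h5]
      simp
    have h3 := Pool.Agent.Q96.LS.pht_pos z hnc
    have h4 := hlow rfl hff
    rw [meets_empty, Set.ncard_empty, Nat.cast_zero, add_zero] at h4
    rw [meets_empty, Set.ncard_empty, Nat.cast_zero, add_zero, Fin.sum_univ_zero, add_zero,
      max_eq_right h4, zero_add] at h2
    have h5 : (∑ l, pht ℂ fun i => MvPolynomial.aeval z (H' l i)) ≤ 0 :=
      Finset.sum_nonpos fun l _ => hp l
    have h6 := mul_nonpos_of_nonneg_of_nonpos (Int.natCast_nonneg A) h5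
    omega

end Pool.Agent.H910.Gg
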