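import Pool.Agent.H910.Gg.Pb

/-!
The class of the projective varieties whose closed subvarieties have maps with fibres of dimension at
most one.
-/

set_option autoImplicit false
set_option linter.unusedSectionVars false
set_option linter.unusedVariables false
set_option linter.overlappingInstances false

open FF
open Pool.Agent.W602.GT (coords IsForm GeneralType LogGeneralType val)
open Pool.Agent.Y216 (OnVar)
open Pool.Agent.W603.PV (pht)
open Pool.Agent.W603.LV (canDeg)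
open Pool.Agent.Y221.BD (EntireCurve PseudoBrody)
open Pool.Agent.TH466.QG (SubOf)
open Pool.Agent.Q271.RC (Nonconst)
open Pool.Agent.H910.Cf Pool.Agent.H910.Lp
open Pool.Agent.H916 (Meets PairMap LogHypFibres HypFibres cuspFun InClosure)
open Pool.Agent.Q103.SF

namespace Pool.Agent.H910.Gg

variable {M : ℕ} {K : Type} [Field K] [Algebra ℂ K] {x : Fin (M + 1) → K} {b : Prop}

theorem MapClass.sub (h : MapClass b x) {E : Type} [Field E] [Algebra ℂ E] {v : Fin (M + 1) → E}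
    (hv : SubOf ℂ x v) : MapClass b v := fun E' _ _ v' t hv' ht hd =>
  h E' v' t (sub_of_on (onVar_trans (SubOf.on hv) (SubOf.on hv')) hv'.gen) ht hd

theorem sub_self (hx : x ≠ 0) (hgen : coords ℂ x = ⊤) : SubOf ℂ x x := ⟨hx, hgen, fun _ _ h => h⟩

theorem BrodyBounded.pb (h : BrodyBounded x) : PseudoBrody x := by
  obtain ⟨G, hG, hGx, hE, -⟩ := h
  exact ⟨G, hG, hGx, hE⟩

theorem Fibred.pbrody (h : Fibred b x) (hx : x ≠ 0) (hgen : coords ℂ x = ⊤) : PBrody b x := by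
  obtain ⟨r, r', N, y, n, z, hy, hz, h⟩ := h
  by_cases hb : b
  · rw [pbrody_true hb]
    exact bb_ascend hx hgen (fun l => ⟨(hy l).1, (pbrody_true hb).1 (hy l).2⟩) hz
      (h.imp_right Or.inl)
  · rw [pbrody_false hb]
    exact pb_ascend hx hgen (fun l => ⟨(hy l).1, (hy l).2.pb⟩) hz (h.imp_right Or.inl)

theorem lowOff_one : LowOff x (fun _ : Unit => (1 : MvPolynomial (Fin (M + 1)) ℂ)) =
    lowCurves x := by
  ext V
  constructor
  · rintro ⟨L, i1, i2, i3, v, ⟨hv, hgen, -⟩, hlow, rfl⟩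
    rw [meets_empty, Set.ncard_empty, Nat.cast_zero, add_zero] at hlow
    exact ⟨L, i1, i2, i3, v, hv, hgen, hlow, rfl⟩
  · rintro ⟨L, i1, i2, i3, v, hv, hgen, hlow, rfl⟩
    refine ⟨L, i1, i2, i3, v, ⟨hv, hgen, qone v⟩, ?_, rfl⟩
    rwa [meets_empty, Set.ncard_empty, Nat.cast_zero, add_zero]

theorem OneMap.step {t : ℕ} (h : OneMap x) (hx : x ≠ 0) (hgen : coords ℂ x = ⊤)
    (ht : Algebra.trdeg ℂ K = t) (h1 : 1 ≤ t) : GeneralType ℂ K t ∧ BrodyBounded x := by
  obtain ⟨n, z, hz, halg⟩ := h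
  obtain ⟨G, A, hG, hGx, hL, hP, hB, hA⟩ := off_single (pair_one hx hgen) hz halg
  exact ⟨gt_of_lgt (fun P => not_meets) (hL K x ⟨Function.ne_iff.1 hx, fun _ _ h => h⟩ hgen
    (qone x) hGx t h1 ht), bb_of_hyp ⟨G, hG, hGx, hB, A, hA⟩⟩

/-- **The closed subvarieties of dimension at least two.** -/
theorem MapClass.step (h : MapClass b x) {E : Type} [Field E] [Algebra ℂ E]
    {v : Fin (M + 1) → E} {t : ℕ} (hv : SubOf ℂ x v) (ht : Algebra.trdeg ℂ E = t) (h2 : 2 ≤ t) :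
    GeneralType ℂ E t ∧ PBrody b v := by
  rcases h E v t hv ht h2 with h1 | ⟨hgt, h1⟩
  · obtain ⟨h3, G, hG, hGx, hE, hA⟩ := h1.step hv.ne hv.gen ht (by omega)
    exact ⟨h3, G, hG, hGx, hE, fun _ => hA⟩
  · exact ⟨hgt, h1.pbrody hv.ne hv.gen⟩

/-- **The exceptional curves.** -/
theorem MapClass.curves (h : MapClass True x) (hx : x ≠ 0) (hgen : coords ℂ x = ⊤) :
    CurveSets x := by
  have h1 : CurvesOff x (fun _ : Unit => (1 : MvPolynomial (Fin (M + 1)) ℂ)) :=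
    curvesOff hx hgen (fun _ => form_one) fun E _ _ v t hv ht h2 => by
      obtain ⟨h3, h4⟩ := h.step (sub_of_on hv.1 hv.2.1) ht h2
      exact ⟨lgt_of_gt h3, hyp_of_bb ((pbrody_true trivial).1 h4)⟩
  obtain ⟨hfin, hent, hcur, hsub, hdeg⟩ := h1
  rw [lowOff_one] at hfin hent hcur hsub hdeg
  refine ⟨hfin, fun f hf => hent _ (entire_of hf), fun V hV => ?_,
    fun E _ _ w v hv hw ht => ?_, ?_⟩
  · obtain ⟨f, hf, hfV⟩ := hcur V hV
    exact ⟨_, of_entire hf, hfV⟩
  · rcases hsub E w v ⟨SubOf.on hv, hv.gen, qone v⟩ hw ht with h1 | h1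
    · exact Or.inl (gt_of_lgt (fun P => not_meets) h1)
    · exact Or.inr h1
  · obtain ⟨A, hA⟩ := hdeg
    refine ⟨A, fun L _ _ _ v hv hn => ?_⟩
    rcases hA L v hv hn (qone v) with h1 | h1
    · left
      rwa [meets_empty, Set.ncard_empty, Nat.cast_zero, add_zero] at h1
    · exact Or.inr h1

/-- **Curves.** -/
theorem curve_pb (hx : x ≠ 0) (hgen : coords ℂ x = ⊤) (ht : Algebra.trdeg ℂ K = (1 : ℕ))
    (hgt : GeneralType ℂ K 1) : BrodyBounded x := by
  refine bb_ascend (r := 0) (r' := 0) (N := fun l => l.elim0) (y := fun l => l.elim0)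
    (n := fun l => l.elim0) (z := fun l => l.elim0) hx hgen (fun l => l.elim0)
    (fun l => l.elim0) (Or.inl ⟨⟨1, hgt⟩, ?_⟩)
  rw [ht, Nat.cast_one]
  exact le_add_self

/-- **Entire curves.** -/
theorem MapClass.entire (h : MapClass b x) {f : Fin (M + 1) → ℂ → ℂ} (hf : EntireCurve x f) :
    vanOn Set.univ (fun t i => f i t) ∈ lowCurves x := by
  obtain ⟨E, i1, i2, z, t, hz, ht, ht1, hiff, hlow⟩ := entire_sub hf
  rcases (by omega : t = 1 ∨ 2 ≤ t) with h1 | h2
  · subst h1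
    have hff : IsFF ℂ E := ⟨Pool.Agent.Q72.NA.ess_of_adjoin hz.gen, by rw [ht]; simp⟩
    refine ⟨E, i1, i2, hff, z, SubOf.on hz, hz.gen, hlow rfl hff, ?_⟩
    ext G
    constructor
    · rintro ⟨hG, h⟩
      exact ⟨hG, (hiff G hG).2 fun t => h t (Set.mem_univ t)⟩
    · rintro ⟨hG, h⟩
      exact ⟨hG, fun t _ => (hiff G hG).1 h t⟩
  · exfalso
    obtain ⟨-, R, hR, hRz, hE, -⟩ := h.step hz ht h2
    exact hRz ((hiff R hR).2 (hE f ⟨hf.hol, hf.ne, fun G hG hGz t => (hiff G hG).1 hGz t,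
      hf.nonconst⟩))

theorem curve_low {V : Set (MvPolynomial (Fin (M + 1)) ℂ)} (hV : V ∈ lowCurves x) :
    ∃ f, EntireCurve x f ∧ vanOn Set.univ (fun t i => f i t) = V :=
  curve_of_low (Pool.Agent.Q24.SF.low_curve Pool.Agent.Q95.SF.wei Pool.Agent.Q111.SF.cls) hV

/-- **The conjecture for all closed subvarieties.** -/
theorem MapClass.iff (h : MapClass b x) {E : Type} [Field E] [Algebra ℂ E]
    {v : Fin (M + 1) → E} {t : ℕ} (hv : SubOf ℂ x v) (ht : Algebra.trdeg ℂ E = t) (h1 : 1 ≤ t) :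
    (PseudoBrody v ↔ GeneralType ℂ E t) ∧ (GeneralType ℂ E t ∨ van v ∈ lowCurves v) := by
  rcases (by omega : t = 1 ∨ 2 ≤ t) with ht1 | h2
  · subst ht1
    have hff : IsFF ℂ E := ⟨Pool.Agent.Q72.NA.ess_of_adjoin hv.gen, by rw [ht]; simp⟩
    have hon : OnVar ℂ v v := ⟨Function.ne_iff.1 hv.ne, fun _ _ h => h⟩
    rcases le_or_gt (canDeg ℂ E) 0 with h3 | h3
    · have h4 : van v ∈ lowCurves v := ⟨E, inferInstance, inferInstance, hff, v, hon, hv.gen,
        h3, rfl⟩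
      refine ⟨⟨?_, fun hgt => ?_⟩, Or.inr h4⟩
      · rintro ⟨R, hR, hRv, hE⟩
        exfalso
        obtain ⟨f, hf, hfV⟩ := curve_low h4
        apply hRv
        have h5 : R ∈ vanOn Set.univ (fun t i => f i t) := ⟨hR, fun t _ => hE f hf t⟩
        rw [hfV] at h5
        exact h5.2
      · exact absurd (Pool.Agent.Q103.SF.pos_of_gt hgt) (not_lt.2 h3)
    · have hgt := Pool.Agent.Q103.SF.gt_of_canDeg h3
      exact ⟨⟨fun _ => hgt, fun _ => (curve_pb hv.ne hv.gen ht hgt).pb⟩, Or.inl hgt⟩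
  · obtain ⟨h3, h4⟩ := h.step hv ht h2
    exact ⟨⟨fun _ => h3, fun _ => h4.pb⟩, Or.inl h3⟩

theorem MapClass.settled (h : MapClass b x) : AllSettled x := fun E _ _ v t hv ht h1 =>
  ⟨(h.iff hv ht h1).1, fun f hf => (h.sub hv).entire hf, fun V hV => curve_low hV,
    (h.iff hv ht h1).2⟩

theorem MapClass.finite (h : MapClass True x) : AllFinite x := fun E _ _ v hv =>
  (h.sub hv).curves hv.ne hv.gen

/-- **Hyperbolicity.** -/
theorem MapClass.tfae (h : MapClass b x) :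
    List.TFAE [KobayashiHyp x, BrodyHyp x, AllGeneral x, NoElliptic x, lowCurves x = ∅] := by
  tfae_have 1 ↔ 2 := (Pool.Agent.Q239.SF.kob M K x).symm
  tfae_have 5 → 2 := by
    intro h0 f hf
    have := h.entire hf
    rw [h0] at this
    exact this
  tfae_have 2 → 5 := by
    intro h0
    rw [Set.eq_empty_iff_forall_notMem]
    intro V hV
    obtain ⟨f, hf, -⟩ := curve_low hV
    exact h0 f hf
  tfae_have 5 → 3 := by
    intro h0 E _ _ w z hz hw ht
    rcases (h.iff hz ht hw).2 with h1 | h1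
    · exact h1
    · exfalso
      obtain ⟨L, i1, i2, i3, v, hv, hgen, hc, -⟩ := h1
      have h2 : van v ∈ lowCurves x := ⟨L, i1, i2, i3, v, onVar_trans (SubOf.on hz) hv, hgen, hc,
        rfl⟩
      rw [h0] at h2
      exact h2
  tfae_have 3 → 5 := by
    intro h0
    rw [Set.eq_empty_iff_forall_notMem]
    rintro V ⟨L, _, _, _, v, hv, hgen, hc, rfl⟩
    have h1 := h0 L 1 v (sub_of_on hv hgen) le_rfl (by
      rw [IsFF.trdeg (k := ℂ) (K := L)]
      simp)
    have h2 := Pool.Agent.Q103.SF.pos_of_gt h1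
    omega
  tfae_have 4 → 5 := by
    intro h0
    rw [Set.eq_empty_iff_forall_notMem]
    intro V hV
    obtain ⟨E, _, _, _, v, hE, hv, hn, -⟩ := ell_of_low hV
    exact h0 E hE v hv hn
  tfae_have 2 → 4 := by
    intro h0 E _ _ _ hE v hv hn
    obtain ⟨f, hf, -⟩ := curve_of_ell Pool.Agent.Q95.SF.wei hE hv hn
    exact h0 f hf
  tfae_finish

/-- **Examples.** -/
theorem mapClass_of_binary (h : BinaryClass x) : MapClass b x := by
  intro E _ _ v t hv ht h2
  rcases h E v t hv ht h2 with h1 | ⟨hgt, r, n, z, hz, htr⟩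
  · exact Or.inl h1
  · refine Or.inr ⟨hgt, 0, r, fun _ => 0, fun l => l.elim0, n, z, fun l => l.elim0, hz,
      Or.inl ⟨⟨t, hgt⟩, ?_⟩⟩
    rw [iSup_of_empty, bot_sup_eq, ht]
    exact htr

/-- **A generically finite ramified map.** -/
theorem single (hx : x ≠ 0) (hgen : coords ℂ x = ⊤) (h : OneMap x) : StrongOff x := by
  obtain ⟨n, z, hz, halg⟩ := h
  obtain ⟨G, A, hG, hGx, hL, hP, hB, hA⟩ := off_single (pair_one hx hgen) hz halg
  refine ⟨G, A, hG, hGx, fun f hf t => hB _ (entire_of hf) t, fun f hf t ht => ?_,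
    fun E _ _ v hv hvG => ⟨fun t h1 ht => ?_, fun L _ _ _ w hw hn hwG => ?_⟩⟩
  · by_contra hcon
    exact hf.ess (hP f ⟨hf.hol, hf.ne, hf.mem, fun t _ => ⟨(), by simp⟩⟩ ⟨t, ht, hcon⟩)
  · exact gt_of_lgt (fun P => not_meets) (hL E v (SubOf.on hv) hv.gen (qone v) hvG t h1 ht)
  · have h1 := hA L w (onVar_trans (SubOf.on hv) hw) hn hwG (qone w)
    rwa [meets_empty, Set.ncard_empty, Nat.cast_zero, add_zero] at h1

end Pool.Agent.H910.Gg
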