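import Pool.Agent.H910.Gg.Defs
import Pool.Agent.H910.Lp.Off
import Pool.Agent.H910.Lp.Lcl
import Pool.Agent.H910.Cf.Stc

/-!
The Green-Griffiths-Lang conjecture for projective varieties with maps whose fibres have dimension at
most one.
-/

set_option autoImplicit false
set_option linter.unusedSectionVars false
set_option linter.unusedVariables false
set_option linter.overlappingInstances false

open FF
open Pool.Agent.W602.GT (coords IsForm GeneralType LogGeneralType val)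
open Pool.Agent.Y216 (OnVar)
open Pool.Agent.W603.PV (pht)
open Pool.Agent.W603.LV (canDeg)
open Pool.Agent.Y221.BD (EntireCurve PseudoBrody)
open Pool.Agent.TH466.QG (SubOf)
open Pool.Agent.Q271.RC (Nonconst)
open Pool.Agent.H910.Cf Pool.Agent.H910.Lp
open Pool.Agent.H916 (Meets PairMap LogHypFibres HypFibres cuspFun InClosure)
open Pool.Agent.Q103.SF (van vanOn lowCurves)

namespace Pool.Agent.H910.Gg

/-- pseudo-Brody hyperbolic with linear degree bounds -/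
def BrodyBounded {M : ℕ} {K : Type} [Field K] [Algebra ℂ K] (x : Fin (M + 1) → K) : Prop :=
  ∃ G : MvPolynomial (Fin (M + 1)) ℂ, IsForm G ∧ val x G ≠ 0 ∧
    (∀ f, EntireCurve x f → ∀ t, MvPolynomial.eval (fun i => f i t) G = 0) ∧
    ∃ A : ℕ, ∀ (E : Type) [Field E] [Algebra ℂ E] [IsFF ℂ E] (v : Fin (M + 1) → E),
      OnVar ℂ x v → Nonconst v → val v G ≠ 0 → pht ℂ v ≤ A * canDeg ℂ E

theorem pbrody_true {M : ℕ} {K : Type} [Field K] [Algebra ℂ K] {x : Fin (M + 1) → K} {b : Prop}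
    (hb : b) : PBrody b x ↔ BrodyBounded x := by
  constructor
  · rintro ⟨G, hG, hGx, hE, hA⟩
    exact ⟨G, hG, hGx, hE, hA hb⟩
  · rintro ⟨G, hG, hGx, hE, hA⟩
    exact ⟨G, hG, hGx, hE, fun _ => hA⟩

theorem PBrody.pb {M : ℕ} {K : Type} [Field K] [Algebra ℂ K] {x : Fin (M + 1) → K} {b : Prop}
    (h : PBrody b x) : PseudoBrody x := by
  obtain ⟨G, hG, hGx, hE, -⟩ := h
  exact ⟨G, hG, hGx, hE⟩

theorem pbrody_false {M : ℕ} {K : Type} [Field K] [Algebra ℂ K] {x : Fin (M + 1) → K} {b : Prop}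
    (hb : ¬ b) : PBrody b x ↔ PseudoBrody x := by
  refine ⟨PBrody.pb, ?_⟩
  rintro ⟨G, hG, hGx, hE⟩
  exact ⟨G, hG, hGx, hE, fun h => (hb h).elim⟩

variable {M : ℕ} {K : Type} [Field K] [Algebra ℂ K] {x : Fin (M + 1) → K}

/-- an entire curve in the projective variety -/
theorem of_entire {f : ℂ → Fin (M + 1) → ℂ}
    (hf : Entire x (fun _ : Unit => (1 : MvPolynomial (Fin (M + 1)) ℂ)) f) :
    EntireCurve x fun i t => f t i := by
  refine ⟨fun i => hf.hol i, fun t => Function.ne_iff.1 (hf.ne t),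
    fun G hG hGx t => hf.mem G hG hGx t, ?_⟩
  by_contra hcon
  push Not at hcon
  obtain ⟨s, t, hst⟩ := hf.nonconst
  obtain ⟨j, hj⟩ := Function.ne_iff.1 (hf.ne t)
  have hj : f t j ≠ 0 := hj
  apply hst (f s j / f t j)
  funext i
  have h1 := hcon i j s t
  rw [Pi.smul_apply, smul_eq_mul]
  field_simp
  linear_combination h1

theorem bb_of_hyp (h : HypOff x (fun _ : Unit => (1 : MvPolynomial (Fin (M + 1)) ℂ))) :
    BrodyBounded x := by
  obtain ⟨G, hG, hGx, hB, A, hA⟩ := h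
  refine ⟨G, hG, hGx, fun f hf t => hB _ (entire_of hf) t, A, fun E _ _ _ v hv hn hvG => ?_⟩
  have h1 := hA E v hv hn hvG (qone v)
  rwa [meets_empty, Set.ncard_empty, Nat.cast_zero, add_zero] at h1

theorem hyp_of_bb (h : BrodyBounded x) :
    HypOff x (fun _ : Unit => (1 : MvPolynomial (Fin (M + 1)) ℂ)) := by
  obtain ⟨G, hG, hGx, hB, A, hA⟩ := h
  refine ⟨G, hG, hGx, fun f hf t => hB _ (of_entire hf) t, A, fun E _ _ _ v hv hn hvG _ => ?_⟩
  rw [meets_empty, Set.ncard_empty, Nat.cast_zero, add_zero]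
  exact hA E v hv hn hvG

/-- the property depends only on the forms which vanish at the point -/
theorem BrodyBounded.congr {B : Type} [Field B] [Algebra ℂ B] {y : Fin (M + 1) → B}
    (h : BrodyBounded x) (hxy : ∀ G : MvPolynomial (Fin (M + 1)) ℂ, IsForm G →
      (val y G = 0 ↔ val x G = 0)) : BrodyBounded y := by
  obtain ⟨G, hG, hGx, hB, A, hA⟩ := h
  refine ⟨G, hG, fun h0 => hGx ((hxy G hG).1 h0), fun f hf t => hB f ⟨hf.hol, hf.ne,
    fun G hG h0 t => hf.mem G hG ((hxy G hG).2 h0) t, hf.nonconst⟩ t, A,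
    fun E _ _ _ v hv hn hvG => hA E v ⟨hv.1, fun G hG h0 => hv.2 G hG ((hxy G hG).2 h0)⟩ hn hvG⟩

theorem pair_one (hx : x ≠ 0) (hgen : coords ℂ x = ⊤) :
    Pair x (fun _ : Unit => (1 : MvPolynomial (Fin (M + 1)) ℂ)) :=
  ⟨hx, hgen, inferInstance, fun _ => form_one, qone x⟩

/-- the field of the image -/
theorem range_eq {B : Type} [Field B] [Algebra ℂ B] {N : ℕ} {v : Fin (N + 1) → B}
    {y : Fin (N + 1) → K} {j0 : Fin (N + 1)} (hj : y j0 ≠ 0) (φ : B →ₐ[ℂ] K)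
    (hφ : ∀ i, φ (v i) = y i / y j0) (hv : coords ℂ v = ⊤) : φ.fieldRange = coords ℂ y := by
  have h0 : φ.fieldRange = (⊤ : IntermediateField ℂ B).map φ := AlgHom.fieldRange_eq_map φ
  rw [h0, ← hv]
  unfold Pool.Agent.W602.GT.coords
  rw [IntermediateField.adjoin_map]
  congr 1
  ext u
  constructor
  · rintro ⟨_, ⟨a, b, hb, rfl⟩, rfl⟩
    have hzb : y b ≠ 0 := by
      intro h0
      apply hb
      have h3 : φ (v b) = φ 0 := by rw [hφ, h0, zero_div, map_zero]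
      exact φ.toRingHom.injective h3
    refine ⟨a, b, hzb, ?_⟩
    rw [map_div₀, hφ, hφ]
    field_simp
  · rintro ⟨a, b, hb, rfl⟩
    refine ⟨v a / v b, ⟨a, b, ?_, rfl⟩, ?_⟩
    · intro h0
      have h1 := congrArg φ h0
      rw [hφ, map_zero, div_eq_zero_iff] at h1
      exact h1.elim hb hj
    · rw [map_div₀, hφ, hφ]
      field_simp

/-- **The ascent.** -/
theorem bb_ascend (hx : x ≠ 0) (hgen : coords ℂ x = ⊤) {r r' : ℕ} {N : Fin r → ℕ}
    {y : ∀ l, Fin (N l + 1) → K} {n : Fin r' → ℕ} {z : ∀ l, Fin (n l + 2) → K}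
    (hy : ∀ l, y l ≠ 0 ∧ BrodyBounded (y l)) (hz : ∀ l, RamP ℂ x (z l))
    (h : ((∃ w, GeneralType ℂ K w) ∧ Algebra.trdeg ℂ K ≤
        Algebra.trdeg ℂ ↥((⨆ l, coords ℂ (y l)) ⊔ ⨆ l, coords ℂ (z l)) + 1) ∨
      HypFibres ((⨆ l, coords ℂ (y l)) ⊔ ⨆ l, coords ℂ (z l))) : BrodyBounded x := by
  have h0 : ∀ l, ∃ j, y l j ≠ 0 := fun l => Function.ne_iff.1 (hy l).1
  choose j0 hj0 using h0
  choose B i1 i2 φ v hφ hvj hgenv hiff using fun l => exists_sub (k := ℂ) (hj0 l)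
  have hr : ∀ l, (φ l).fieldRange = coords ℂ (y l) := fun l =>
    range_eq (hj0 l) (φ l) (hφ l) (hgenv l)
  apply bb_of_hyp
  refine off_ascend (pair_one hx hgen) (Q' := fun _ _ => 1) (y := v) (κ := fun _ => Unit)
    (fun l => pair_one (fun h0 => hvj l (congrFun h0 _)) (hgenv l)) φ (fun l => ?_) hz ?_
    (fun l => hyp_of_bb ((hy l).2.congr (hiff l)))
  · intro f g hfg h0
    have h1 := h0 ()
    simp at h1
  · have hS : (⨆ l, (φ l).fieldRange) = ⨆ l, coords ℂ (y l) := iSup_congr hr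
    rw [hS]
    rcases h with ⟨⟨w, hw⟩, htr⟩ | h
    · exact Or.inl ⟨⟨w, lgt_of_gt hw⟩, htr⟩
    · right
      rcases h with h | ⟨Ω, F, i1, i2, i3, i4, i5, hcomm, hF, hff, hdeg⟩
      · exact Or.inl h
      · refine Or.inr ⟨Ω, F, i1, i2, i3, i4, i5, hcomm, hF, hff, ?_⟩
        have h1 := Int.natCast_nonneg {P : Place Ω F | ∀ i, ∃ j,
          P.ord (algebraMap K F (cuspFun x (fun _ : Unit =>
            (1 : MvPolynomial (Fin (M + 1)) ℂ)) i j)) < 0}.ncard
        linarith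

end Pool.Agent.H910.Gg
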