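import Pool.Agent.H910.Cf.Bdf
import Pool.Graph.R_seed8.Y221.BD.Defs
import Pool.Graph.R_pool_sql_team_seeded_3997aac3.Q271.RC.Defs
import Pool.Graph.R_seed8.TH466.QG.Strong

/-!
Definitions: projective varieties whose closed subvarieties have maps with fibres of dimension at most
one.
-/

set_option autoImplicit false
set_option linter.overlappingInstances false

open FF
open Pool.Agent.W602.GT (coords IsForm GeneralType val)
open Pool.Agent.Y216 (OnVar)
open Pool.Agent.W603.PV (pht)
open Pool.Agent.W603.LV (canDeg)
open Pool.Agent.Y221.BD (EntireCurve PseudoBrody)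
open Pool.Agent.Y221.PD (EssentialDisc)
open Pool.Agent.TH466.QG (SubOf)
open Pool.Agent.Q271.RC (Nonconst)
open Pool.Agent.Q103.SF (van vanOn lowCurves)
open Pool.Agent.H910.Cf (RamP CurveSets)

namespace Pool.Agent.H910.Gg

/-- The projective variety `X` with the generic point `x` is pseudo-Brody hyperbolic: there is a proper
closed subset `G = 0` of `X` which contains all nonconstant entire curves in `X`. If `b`, then moreover
`deg v ≤ A (2 g - 2)` for all nonconstant maps `v` from curves of genus `g` to `X` with the image not
contained in `G = 0`, for some `A`. -/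
def PBrody (b : Prop) {M : ℕ} {K : Type} [Field K] [Algebra ℂ K] (x : Fin (M + 1) → K) : Prop :=
  ∃ G : MvPolynomial (Fin (M + 1)) ℂ, IsForm G ∧ val x G ≠ 0 ∧
    (∀ f, EntireCurve x f → ∀ t, MvPolynomial.eval (fun i => f i t) G = 0) ∧
    (b → ∃ A : ℕ, ∀ (E : Type) [Field E] [Algebra ℂ E] [IsFF ℂ E] (v : Fin (M + 1) → E),
      OnVar ℂ x v → Nonconst v → val v G ≠ 0 → pht ℂ v ≤ A * canDeg ℂ E)

/-- The projective variety with the generic point `x` has a generically finite ramified map to a space
of binary forms. -/
def OneMap {M : ℕ} {K : Type} [Field K] [Algebra ℂ K] (x : Fin (M + 1) → K) : Prop :=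
  ∃ (n : ℕ) (z : Fin (n + 2) → K), RamP ℂ x z ∧ Algebra.IsAlgebraic (coords ℂ z) K

/-- The projective variety `X` with the generic point `x` has finitely many rational maps `y l` to
pseudo-Brody hyperbolic varieties (dominant maps; with degree bounds, if `b`) and finitely many
ramified maps `z l` to spaces of binary forms; and `X` is of general type and its dimension is at most
`dim Z + 1`, where `Z` is the image of `X` in the product; or `dim X = dim Z`. -/
def Fibred (b : Prop) {M : ℕ} {K : Type} [Field K] [Algebra ℂ K] (x : Fin (M + 1) → K) : Prop :=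
  ∃ (r r' : ℕ) (N : Fin r → ℕ) (y : ∀ l, Fin (N l + 1) → K) (n : Fin r' → ℕ)
    (z : ∀ l, Fin (n l + 2) → K), (∀ l, y l ≠ 0 ∧ PBrody b (y l)) ∧
    (∀ l, RamP ℂ x (z l)) ∧
    (((∃ w, GeneralType ℂ K w) ∧ Algebra.trdeg ℂ K ≤
        Algebra.trdeg ℂ ↥((⨆ l, coords ℂ (y l)) ⊔ ⨆ l, coords ℂ (z l)) + 1) ∨
      Algebra.IsAlgebraic ↥((⨆ l, coords ℂ (y l)) ⊔ ⨆ l, coords ℂ (z l)) K)

/-- Every closed subvariety `V` of dimension at least two of the projective variety with the generic
point `x` has a generically finite ramified map to a space of binary forms, or is of general type and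
`Fibred`. -/
def MapClass (b : Prop) {M : ℕ} {K : Type} [Field K] [Algebra ℂ K] (x : Fin (M + 1) → K) :
    Prop :=
  ∀ (E : Type) [Field E] [Algebra ℂ E] (v : Fin (M + 1) → E) (t : ℕ), SubOf ℂ x v →
    Algebra.trdeg ℂ E = t → 2 ≤ t → OneMap v ∨ (GeneralType ℂ E t ∧ Fibred b v)

/-- The conjecture of Green, Griffiths and Lang is true for all closed subvarieties of the projective
variety with the generic point `x`: each closed subvariety `V` of positive dimension is pseudo-Brody
hyperbolic if and only if it is of general type. Moreover the Zariski closure of every nonconstant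
entire curve in `V` is a closed curve of geometric genus at most one, each of these curves is the
closure of an entire curve, and all other closed subvarieties of positive dimension of `V` are of
general type. -/
def AllSettled {M : ℕ} {K : Type} [Field K] [Algebra ℂ K] (x : Fin (M + 1) → K) : Prop :=
  ∀ (E : Type) [Field E] [Algebra ℂ E] (v : Fin (M + 1) → E) (t : ℕ), SubOf ℂ x v →
    Algebra.trdeg ℂ E = t → 1 ≤ t → (PseudoBrody v ↔ GeneralType ℂ E t) ∧
      (∀ f, EntireCurve v f → vanOn Set.univ (fun t i => f i t) ∈ lowCurves v) ∧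
      (∀ V ∈ lowCurves v, ∃ f, EntireCurve v f ∧ vanOn Set.univ (fun t i => f i t) = V) ∧
      (GeneralType ℂ E t ∨ van v ∈ lowCurves v)

/-- For each closed subvariety `V` of the projective variety with the generic point `x`: the closed
curves of geometric genus at most one in `V` are finite in number, and `deg v ≤ A (2 g - 2)` for the
other maps from curves to `V` (and the properties in `AllSettled`). -/
def AllFinite {M : ℕ} {K : Type} [Field K] [Algebra ℂ K] (x : Fin (M + 1) → K) : Prop :=
  ∀ (E : Type) [Field E] [Algebra ℂ E] (v : Fin (M + 1) → E), SubOf ℂ x v → CurveSets v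

/-- There are a proper closed subset `G = 0` of the projective variety `X` with the generic point `x`
and a number `A`, such that all nonconstant entire curves in `X` and all holomorphic maps from the
punctured disc to `X` with an essential singularity are contained in `G = 0`; and all closed
subvarieties `V` of positive dimension of `X` which are not contained in `G = 0` are of general type,
with `deg w ≤ A (2 g - 2)` for the nonconstant maps `w` from curves of genus `g` to `V` with image not
contained in `G = 0`. -/
def StrongOff {M : ℕ} {K : Type} [Field K] [Algebra ℂ K] (x : Fin (M + 1) → K) : Prop :=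
  ∃ (G : MvPolynomial (Fin (M + 1)) ℂ) (A : ℕ), IsForm G ∧ val x G ≠ 0 ∧
    (∀ f, EntireCurve x f → ∀ t, MvPolynomial.eval (fun i => f i t) G = 0) ∧
    (∀ f, EssentialDisc x f → ∀ t ∈ Metric.ball (0 : ℂ) 1 \ {0},
      MvPolynomial.eval (f t) G = 0) ∧
    ∀ (E : Type) [Field E] [Algebra ℂ E] (v : Fin (M + 1) → E), SubOf ℂ x v → val v G ≠ 0 →
      (∀ t : ℕ, 1 ≤ t → Algebra.trdeg ℂ E = t → GeneralType ℂ E t) ∧
      ∀ (L : Type) [Field L] [Algebra ℂ L] [IsFF ℂ L] (w : Fin (M + 1) → L),
        OnVar ℂ v w → Nonconst w → val w G ≠ 0 → pht ℂ w ≤ A * canDeg ℂ L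

end Pool.Agent.H910.Gg
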