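import Pool.Agent.H910.Gg.Brd

/-!
Entire curves in projective varieties with maps to pseudo-Brody hyperbolic varieties.
-/

set_option autoImplicit false
set_option linter.unusedSectionVars false
set_option linter.unusedVariables false
set_option linter.overlappingInstances false

open FF
open Pool.Agent.W602.GT (coords IsForm GeneralType LogGeneralType val)
open Pool.Agent.Y216 (OnVar)
open Pool.Agent.Y221.BD (EntireCurve PseudoBrody)
open Pool.Agent.H910.Cf Pool.Agent.H910.Lp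
open Pool.Agent.H916 (Meets PairMap LogHypFibres HypFibres cuspFun InClosure logHyp_of_lgt')

namespace Pool.Agent.H910.Gg

variable {M : ℕ} {K : Type} [Field K] [Algebra ℂ K] {x : Fin (M + 1) → K}

theorem pb_constOn {N : ℕ} {y : Fin (N + 1) → K} (h : PseudoBrody y) :
    ConstOn x (fun _ : Unit => (1 : MvPolynomial (Fin (M + 1)) ℂ)) y := by
  obtain ⟨R, hR, hRy, hE⟩ := h
  refine pair_constOn (Q' := fun _ : Unit => (1 : MvPolynomial (Fin (N + 1)) ℂ))
    (fun f g hfg h0 => ?_) (fun _ => form_one) (fun _ => form_one) hR hRy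
    (fun f hf t => hE _ (of_entire hf) t)
  have h1 := h0 ()
  simp at h1

theorem logHyp_of_hyp {C : IntermediateField ℂ K} (h : HypFibres C) {ι J : Type}
    (s : ι → J → K) : LogHypFibres C.toSubfield s := by
  rcases h with h | ⟨Ω, F, i1, i2, i3, i4, i5, hcomm, hF, hff, hdeg⟩
  · exact Or.inl h
  · refine Or.inr ⟨Ω, F, i1, i2, i3, i4, i5, hcomm, hF, hff, ?_⟩
    have h1 := Int.natCast_nonneg {P : Place Ω F | ∀ i, ∃ j,
      P.ord (algebraMap K F (s i j)) < 0}.ncard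
    linarith

/-- **The ascent for entire curves.** -/
theorem pb_ascend (hx : x ≠ 0) (hgen : coords ℂ x = ⊤) {r r' : ℕ} {N : Fin r → ℕ}
    {y : ∀ l, Fin (N l + 1) → K} {n : Fin r' → ℕ} {z : ∀ l, Fin (n l + 2) → K}
    (hy : ∀ l, y l ≠ 0 ∧ PseudoBrody (y l)) (hz : ∀ l, RamP ℂ x (z l))
    (h : ((∃ w, GeneralType ℂ K w) ∧ Algebra.trdeg ℂ K ≤
        Algebra.trdeg ℂ ↥((⨆ l, coords ℂ (y l)) ⊔ ⨆ l, coords ℂ (z l)) + 1) ∨
      HypFibres ((⨆ l, coords ℂ (y l)) ⊔ ⨆ l, coords ℂ (z l))) : PseudoBrody x := by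
  classical
  have hfib : LogHypFibres ((⨆ l, coords ℂ (y l)) ⊔ ⨆ l, coords ℂ (z l)).toSubfield
      (cuspFun x fun _ : Unit => (1 : MvPolynomial (Fin (M + 1)) ℂ)) := by
    rcases h with ⟨⟨w, hw⟩, htr⟩ | h
    · exact logHyp_of_lgt' hx hgen (qone x) (lgt_of_gt hw) htr
    · exact logHyp_of_hyp h _
  -- the two families together
  let NN : Fin r ⊕ Fin r' → ℕ := Sum.elim N fun l => n l + 1
  let YY : ∀ s : Fin r ⊕ Fin r', Fin (NN s + 1) → K :=
    fun s => Sum.rec (motive := fun s => Fin (NN s + 1) → K) (fun l => y l)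
      (fun l => z l) s
  let e : Fin (Fintype.card (Fin r ⊕ Fin r')) ≃ Fin r ⊕ Fin r' := (Fintype.equivFin _).symm
  have hYY : ∀ s, YY s ≠ 0 ∧
      ConstOn x (fun _ : Unit => (1 : MvPolynomial (Fin (M + 1)) ℂ)) (YY s) := by
    rintro (l | l)
    · exact ⟨(hy l).1, pb_constOn (hy l).2⟩
    · exact ⟨(hz l).ne, ram_constOn (hz l)⟩
  have hsup : (⨆ s, coords ℂ (YY (e s))) = (⨆ l, coords ℂ (y l)) ⊔ ⨆ l, coords ℂ (z l) := by
    rw [Equiv.iSup_comp (g := fun s => coords ℂ (YY s)) e, iSup_sum]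
    rfl
  exact pb_fib (y := fun s => YY (e s)) hx hgen (fun s => (hYY (e s)).1)
    (by rw [hsup]; exact hfib) fun s => (hYY (e s)).2

end Pool.Agent.H910.Gg
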