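import Pool.Agent.H910.Gg.Defs

/-!
Definition: a class of projective varieties for which the entire curves and the maps from abelian
varieties are compared.
-/

set_option autoImplicit false
set_option linter.overlappingInstances false

open Pool.Agent.W602.GT (coords IsForm GeneralType val)
open Pool.Agent.Y221.BD (EntireCurve PseudoBrody)
open Pool.Agent.TH466.QG (SubOf)
open Pool.Agent.Q103.SF (van vanOn lowCurves)
open Pool.Agent.H910.Cf (RamP)

namespace Pool.Agent.H910.Gg

/-- The projective variety with the generic point `v` has a nonconstant ramified map to a space of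
binary forms, or a nonconstant (dominant) rational map to a pseudo-Brody hyperbolic variety, or it
contains a closed curve of geometric genus at most one. -/
def HasMap {M : ℕ} {E : Type} [Field E] [Algebra ℂ E] (v : Fin (M + 1) → E) : Prop :=
  (∃ (n : ℕ) (z : Fin (n + 2) → E), RamP ℂ v z ∧ coords ℂ z ≠ ⊥) ∨
  (∃ (N : ℕ) (y : Fin (N + 1) → E), y ≠ 0 ∧ PseudoBrody y ∧ coords ℂ y ≠ ⊥) ∨
  lowCurves v ≠ ∅

/-- Every closed subvariety `V` of dimension at least two of the projective variety with the generic
point `x` has the property `HasMap`. -/
def TorusClass {M : ℕ} {K : Type} [Field K] [Algebra ℂ K] (x : Fin (M + 1) → K) : Prop :=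
  ∀ (E : Type) [Field E] [Algebra ℂ E] (v : Fin (M + 1) → E) (t : ℕ), SubOf ℂ x v →
    Algebra.trdeg ℂ E = t → 2 ≤ t → HasMap v

/-- The Zariski closure of each nonconstant entire curve in the projective variety with the generic
point `x` contains a closed curve of geometric genus at most one. -/
def ClosureHasLow {M : ℕ} {K : Type} [Field K] [Algebra ℂ K] (x : Fin (M + 1) → K) : Prop :=
  ∀ f, EntireCurve x f → ∃ V ∈ lowCurves x, vanOn Set.univ (fun t i => f i t) ⊆ V

end Pool.Agent.H910.Gg
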