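import Pool.Agent.H910.Gg.Cls
import Pool.Agent.H910.Gg.Tdf

/-!
Entire curves and maps from elliptic curves.
-/

set_option autoImplicit false
set_option linter.unusedSectionVars false
set_option linter.unusedVariables false
set_option linter.overlappingInstances false

open FF
open Pool.Agent.W602.GT (coords IsForm GeneralType LogGeneralType val)
open Pool.Agent.Y216 (OnVar)
open Pool.Agent.W603.PV (pht)
open Pool.Agent.W603.LV (canDeg)
open Pool.Agent.Y221.BD (EntireCurve PseudoBrody)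
open Pool.Agent.TH466.QG (SubOf)
open Pool.Agent.Q271.RC (Nonconst IsGeneric)
open Pool.Agent.H910.Cf Pool.Agent.H910.Lp
open Pool.Agent.H916 (Meets PairMap LogHypFibres HypFibres cuspFun InClosure RMap)
open Pool.Agent.Q103.SF

namespace Pool.Agent.H910.Gg

variable {M : ℕ} {K : Type} [Field K] [Algebra ℂ K] {x : Fin (M + 1) → K}

/-- maps which are constant on entire curves are constant if there is a dense entire curve -/
theorem const_of_dense (hx : x ≠ 0) (hgen : coords ℂ x = ⊤) {N : ℕ} {y : Fin (N + 1) → K}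
    (hy : y ≠ 0) (h : ConstOn x (fun _ : Unit => (1 : MvPolynomial (Fin (M + 1)) ℂ)) y)
    {f : Fin (M + 1) → ℂ → ℂ} (hf : EntireCurve x f)
    (hd : ∀ G : MvPolynomial (Fin (M + 1)) ℂ, IsForm G →
      (∀ t, MvPolynomial.eval (fun i => f i t) G = 0) → val x G = 0) : coords ℂ y = ⊥ := by
  classical
  obtain ⟨i0, hi0⟩ := Function.ne_iff.1 hx
  have hi0 : x i0 ≠ 0 := hi0
  obtain ⟨j0, hj0⟩ := Function.ne_iff.1 hy
  have hj0 : y j0 ≠ 0 := hj0
  obtain ⟨e, H, hH, hne, heq⟩ := Pool.Agent.H916.exists_forms (k := ℂ) hi0 hj0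
    (by rw [hgen]; exact le_top)
  have hR : RMap x y j0 e H := ⟨hH, hne, hj0, heq⟩
  obtain ⟨G, hG, hGx, hmain⟩ := h j0 e H hR
  have hfG : ∃ t, MvPolynomial.eval (fun i => f i t) G ≠ 0 := by
    by_contra hcon
    push Not at hcon
    exact hGx (hd G hG hcon)
  obtain ⟨⟨b, hb⟩, hc⟩ := hmain _ (entire_of hf) hfG
  have hconst : ∀ i, ∃ c : ℂ, y i / y j0 = algebraMap ℂ K c := by
    intro i
    set c0 := MvPolynomial.eval (fun i => f i b) (H j0) with hc0
    set c1 := MvPolynomial.eval (fun i => f i b) (H i) with hc1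
    refine ⟨c1 / c0, ?_⟩
    have h0 := hd (MvPolynomial.C c0 * H i - MvPolynomial.C c1 * H j0) ⟨e, by
      refine MvPolynomial.IsHomogeneous.sub ?_ ?_
      · have := (MvPolynomial.isHomogeneous_C (Fin (M + 1)) c0).mul (hH i)
        rwa [zero_add] at this
      · have := (MvPolynomial.isHomogeneous_C (Fin (M + 1)) c1).mul (hH j0)
        rwa [zero_add] at this⟩ (fun t => by
      rw [map_sub, map_mul, map_mul, MvPolynomial.eval_C, MvPolynomial.eval_C]
      have h1 := hc i j0 t b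
      linear_combination h1)
    unfold Pool.Agent.W602.GT.val at h0
    rw [map_sub, map_mul, map_mul, MvPolynomial.aeval_C, MvPolynomial.aeval_C,
      sub_eq_zero] at h0
    rw [heq, map_div₀, div_eq_div_iff hne ((_root_.map_ne_zero _).2 hb)]
    linear_combination h0
  rw [eq_bot_iff]
  unfold Pool.Agent.W602.GT.coords
  rw [IntermediateField.adjoin_le_iff]
  rintro _ ⟨i, j, hj, rfl⟩
  obtain ⟨c, hc⟩ := hconst i
  obtain ⟨d, hd⟩ := hconst j
  have h1 : y i / y j = (y i / y j0) / (y j / y j0) := by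
    rw [div_div_div_cancel_right₀ hj0]
  rw [h1, hc, hd, ← map_div₀]
  exact IntermediateField.algebraMap_mem _ _

theorem low_trans {E : Type} [Field E] [Algebra ℂ E] {v : Fin (M + 1) → E} (hv : OnVar ℂ x v)
    {V : Set (MvPolynomial (Fin (M + 1)) ℂ)} (hV : V ∈ lowCurves v) : V ∈ lowCurves x := by
  obtain ⟨L, i1, i2, i3, w, hw, hgen, hc, rfl⟩ := hV
  exact ⟨L, i1, i2, i3, w, onVar_trans hv hw, hgen, hc, rfl⟩

/-- **Entire curves.** -/
theorem TorusClass.closure (h : TorusClass x) : ClosureHasLow x := by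
  intro f hf
  obtain ⟨E, i1, i2, z, t, hz, ht, ht1, hiff, hlow⟩ := entire_sub hf
  rcases (by omega : t = 1 ∨ 2 ≤ t) with h1 | h2
  · subst h1
    have hff : IsFF ℂ E := ⟨Pool.Agent.Q72.NA.ess_of_adjoin hz.gen, by rw [ht]; simp⟩
    refine ⟨van z, ⟨E, i1, i2, hff, z, SubOf.on hz, hz.gen, hlow rfl hff, rfl⟩, ?_⟩
    rintro G ⟨hG, h⟩
    exact ⟨hG, (hiff G hG).2 fun t => h t (Set.mem_univ t)⟩
  · have hfz : EntireCurve z f :=
      ⟨hf.hol, hf.ne, fun G hG hGz t => (hiff G hG).1 hGz t, hf.nonconst⟩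
    have hd : ∀ G : MvPolynomial (Fin (M + 1)) ℂ, IsForm G →
        (∀ t, MvPolynomial.eval (fun i => f i t) G = 0) → val z G = 0 :=
      fun G hG h => (hiff G hG).2 h
    rcases h E z t hz ht h2 with ⟨n, y, hy, hnc⟩ | ⟨N, y, hy0, hy, hnc⟩ | hlow
    · exact absurd (entire_const hz.ne hz.gen hy hfz hd) hnc
    · exact absurd (const_of_dense hz.ne hz.gen hy0 (pb_constOn hy) hfz hd) hnc
    · obtain ⟨V, hV⟩ := Set.nonempty_iff_ne_empty.2 hlow
      refine ⟨V, low_trans (SubOf.on hz) hV, ?_⟩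
      obtain ⟨L, j1, j2, j3, w, hw, hgen, hc, rfl⟩ := hV
      rintro G ⟨hG, h⟩
      exact ⟨hG, hw.2 G hG (hd G hG fun t => h t (Set.mem_univ t))⟩

/-- **Hyperbolicity.** -/
theorem ClosureHasLow.tfae (h : ClosureHasLow x) :
    List.TFAE [KobayashiHyp x, BrodyHyp x, NoElliptic x, lowCurves x = ∅] := by
  tfae_have 1 ↔ 2 := (Pool.Agent.Q239.SF.kob M K x).symm
  tfae_have 4 → 2 := by
    intro h0 f hf
    obtain ⟨V, hV, -⟩ := h f hf
    rw [h0] at hV
    exact hV
  tfae_have 2 → 4 := by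
    intro h0
    rw [Set.eq_empty_iff_forall_notMem]
    intro V hV
    obtain ⟨f, hf, -⟩ := curve_low hV
    exact h0 f hf
  tfae_have 3 → 4 := by
    intro h0
    rw [Set.eq_empty_iff_forall_notMem]
    intro V hV
    obtain ⟨E, _, _, _, v, hE, hv, hn, -⟩ := ell_of_low hV
    exact h0 E hE v hv hn
  tfae_have 2 → 3 := by
    intro h0 E _ _ _ hE v hv hn
    obtain ⟨f, hf, -⟩ := curve_of_ell Pool.Agent.Q95.SF.wei hE hv hn
    exact h0 f hf
  tfae_finish

/-- **Surfaces.** -/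
theorem HasMap.surface (h : HasMap x) (hx : x ≠ 0) (hgen : coords ℂ x = ⊤)
    (htr : Algebra.trdeg ℂ K = (2 : ℕ)) : TorusClass x := by
  intro E _ _ v t hv ht h2
  have hbg : IsGeneric x := ⟨Function.ne_iff.1 hx, hgen⟩
  have hvg : IsGeneric v := ⟨Function.ne_iff.1 hv.ne, hv.gen⟩
  have hpt : Pool.Agent.Q271.RC.IsPoint x v := fun G D hG hGx => hv.spec G ⟨D, hG⟩ hGx
  obtain ⟨ht2, hiso⟩ := Pool.Agent.Q96.OS.gen_point' hbg htr E v t hpt hvg ht
  obtain rfl : t = 2 := by omega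
  obtain ⟨σ, l, hl, hvl, hs⟩ := hiso rfl
  have hbot : ∀ {N : ℕ} (y : Fin (N + 1) → K), coords ℂ y ≠ ⊥ →
      coords ℂ (fun j => σ (y j)) ≠ ⊥ := by
    intro N y hy h0
    apply hy
    rw [coords_iso σ] at h0
    rw [eq_bot_iff]
    intro w hw
    have hw' : σ w ∈ (coords ℂ y).map σ := ⟨w, hw, rfl⟩
    rw [h0] at hw'
    obtain ⟨c, hc⟩ := IntermediateField.mem_bot.1 hw'
    refine IntermediateField.mem_bot.2 ⟨c, σ.toRingHom.injective ?_⟩
    exact (σ.commutes c).trans hc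
  rcases h with ⟨n, z, hz, hnc⟩ | ⟨N, y, hy0, hy, hnc⟩ | hlow
  · exact Or.inl ⟨n, _, RamP.iso hz σ hl hvl, hbot z hnc⟩
  · refine Or.inr (Or.inl ⟨N, fun j => σ (y j), ?_, ?_, hbot y hnc⟩)
    · intro h0
      apply hy0
      funext j
      have h1 := congrFun h0 j
      exact σ.toRingHom.injective (by
        rw [Pi.zero_apply, map_zero]
        exact h1)
    · obtain ⟨R, hR, hRy, hE⟩ := hy
      refine ⟨R, hR, ?_, fun f hf t => hE f ⟨hf.hol, hf.ne, fun G hG h0 t => hf.mem G hG ?_ t,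
        hf.nonconst⟩ t⟩
      · rw [val_hom0]
        exact (map_ne_zero σ).2 hRy
      · rw [val_hom0, h0, map_zero]
  · refine Or.inr (Or.inr fun h0 => hlow ?_)
    rw [Set.eq_empty_iff_forall_notMem] at h0 ⊢
    intro V hV
    apply h0 V
    obtain ⟨L, j1, j2, j3, w, hw, hwgen, hc, rfl⟩ := hV
    refine ⟨L, j1, j2, j3, w, ⟨hw.1, fun G hG hGv => hw.2 G hG ?_⟩, hwgen, hc, rfl⟩
    obtain ⟨e, he⟩ := hG
    have h1 : val v G = l ^ e * σ (val x G) := by
      have h2 : v = fun i => l * (fun i => σ (x i)) i := funext hvl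
      rw [h2, Pool.Agent.W602.GT.val_smul he]
      congr 1
      exact val_hom0 σ x G
    rw [h1, mul_eq_zero, or_iff_right (pow_ne_zero _ hl)] at hGv
    exact (map_eq_zero σ).1 hGv

/-- **The class of the varieties with maps with fibres of dimension at most one.** -/
theorem MapClass.sets2 (h : MapClass True x) (hx : x ≠ 0) (hgen : coords ℂ x = ⊤) :
    CurveSets2 x :=
  { toCurveSets := h.curves hx hgen
    elliptic := fun V hV => ell_of_low hV
    mero := fun g u hu => mero_low2 (fun f hf => h.entire hf) (h.curves hx hgen).finite hu }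

/-- **Targets.** -/
theorem OneMap.pb (h : OneMap x) (hx : x ≠ 0) (hgen : coords ℂ x = ⊤) : PseudoBrody x := by
  obtain ⟨G, A, hG, hGx, hE, -⟩ := single hx hgen h
  exact ⟨G, hG, hGx, hE⟩

end Pool.Agent.H910.Gg
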